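import Pool.Agent.H70.PT.Targets

/-!
# De Mol's tag system S₂ on products of random blocks (problem MP_c95a35_lc): assembly
-/

set_option autoImplicit false

open List Finset Pool.Agent.H68.TG Pool.Agent.H75.RW

namespace Pool.Agent.H70.PT

lemma NN_mono {r m : ℕ} {p p' : (Fin r → ℕ) → (Fin r → ℕ) → Prop}
    (h : ∀ X Y, p X Y → p' X Y) : NN r m p ≤ NN r m p' := by
  unfold NN
  exact_mod_cast Set.ncard_le_ncard (fun q hq => h _ _ hq) (Set.toFinite _)

lemma NN_or {r m : ℕ} (p p' : (Fin r → ℕ) → (Fin r → ℕ) → Prop) :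
    NN r m (fun X Y => p X Y ∨ p' X Y) ≤ NN r m p + NN r m p' := by
  unfold NN
  exact_mod_cast Set.ncard_union_le _ _

theorem fin_aux (NST : T_NST) (UPP : T_UPP) (MNY : T_MNY) (ONE : T_ONE) (ENT : T_ENT)
    (CHO : T_CHO) (GRE : T_GRE) (ε : ℝ) (hε : 0 < ε) (hε2 : ε ≤ 1 / 2) :
    ∃ c > (0 : ℝ), ∃ n₀ : ℕ, ∀ n ≥ n₀, ∀ m r : ℕ,
  (n : ℝ) ≤ (1 - ε) * m → 1 ≤ r → ∃ β : ℝ,
    IsGreatest {b : ℝ | 1 / 2 ≤ b ∧ b ≤ 3 / 4 ∧ ka b ≤ Real.logb 2 r / n} β ∧
    NN r m (fun X Y => ¬ Good ε β n m r X Y) ≤ 2 ^ (-(c * n)) * (4 ^ m) ^ r := by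
  obtain ⟨η, hη, δ, hδ, hη16, hmu, hka0, hkad, hsx⟩ := CHO (ε / 8) (by positivity)
  obtain ⟨n1, h1⟩ := MNY (min δ (ε / 4)) (by positivity)
  obtain ⟨c2, hc2, n2, h2⟩ := ONE (ε / 4) (by positivity) (by linarith)
  set c' : ℝ := min (min (ε / 2 * δ) 1) c2 with hc'
  have hc'0 : 0 < c' := by positivity
  refine ⟨c' / 2, by positivity, max (max n1 n2) (max (⌈3 / ε⌉₊ + 1) (⌈8 / c'⌉₊)), ?_⟩
  intro n hn m r hnm hr
  have hn1 : n1 ≤ n := le_trans (le_trans (le_max_left _ _) (le_max_left _ _)) hn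
  have hn2 : n2 ≤ n := le_trans (le_trans (le_max_right _ _) (le_max_left _ _)) hn
  have hn3 : ⌈3 / ε⌉₊ + 1 ≤ n := le_trans (le_trans (le_max_left _ _) (le_max_right _ _)) hn
  have hn4 : ⌈8 / c'⌉₊ ≤ n := le_trans (le_trans (le_max_right _ _) (le_max_right _ _)) hn
  have hn0 : (1 : ℝ) ≤ n := by
    have : 1 ≤ n := le_trans (Nat.le_add_left 1 _) hn3
    exact_mod_cast this
  have hnε : 3 ≤ ε * n := by
    have : 3 / ε ≤ n := (Nat.le_ceil _).trans (by exact_mod_cast (le_trans (Nat.le_succ _) hn3))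
    rw [div_le_iff₀ hε] at this
    linarith
  have hnc : 8 ≤ c' * n := by
    have : 8 / c' ≤ n := (Nat.le_ceil _).trans (by exact_mod_cast hn4)
    rw [div_le_iff₀ hc'0] at this
    linarith
  have hr1 : (1 : ℝ) ≤ r := by exact_mod_cast hr
  have hm0 : (0 : ℝ) ≤ m := Nat.cast_nonneg m
  have hmR : (n : ℝ) + 3 ≤ m := by nlinarith
  have hm : n + 3 ≤ m := by exact_mod_cast hmR
  have hlog : 0 ≤ Real.logb 2 r := Real.logb_nonneg (by norm_num) hr1
  obtain ⟨β, hβ⟩ := GRE (Real.logb 2 r / n) (by positivity)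
  refine ⟨β, hβ, ?_⟩
  obtain ⟨⟨hβ1, hβ2, hβ3⟩, hβ4⟩ := hβ
  obtain ⟨-, -, -, hmu12, -, -, -, hmum⟩ := ENT
  have hl3 : 1 ≤ Real.logb 2 3 := by
    rw [Real.le_logb_iff_rpow_le (by norm_num) (by norm_num)]
    norm_num
  have hmuβ : -(1 / 2) ≤ mu β := by
    have : mu (1 / 2) ≤ mu β := hmum.monotoneOn ⟨by norm_num, by norm_num⟩ ⟨hβ1, hβ2⟩ hβ1
    linarith
  have hmax : ∀ b, β < b → 1 / 2 ≤ b → b ≤ 3 / 4 → (r : ℝ) ≤ 2 ^ (ka b * n) := by
    intro b hb hb1 hb2
    have : ¬ (ka b ≤ Real.logb 2 r / n) := fun h => absurd (hβ4 ⟨hb1, hb2, h⟩) (not_le.mpr hb)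
    rw [not_le, div_lt_iff₀ (by linarith)] at this
    rw [Real.logb_lt_iff_lt_rpow (by norm_num) (by linarith)] at this
    exact this.le
  -- the upper bound
  have hup : NN r m (fun X Y => (r : ℝ) * 2 ^ m * 2 ^ ((mu β + ε) * n) < LL (ru n X Y)) ≤
      12 * 2 ^ (-(c' * n)) * (4 ^ m) ^ r := by
    set b : ℝ := min (3 / 4) (β + η) with hb
    have hb2 : b ≤ 3 / 4 := min_le_left _ _
    have hb1 : 1 / 2 + η ≤ b := le_min (by linarith) (by linarith)
    have hbβ : β ≤ b := le_min hβ2 (by linarith)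
    have hbη : b ≤ β + η := min_le_right _ _
    have hcase : b = 3 / 4 ∨ (r : ℝ) ≤ 2 ^ (ka b * n) := by
      rcases le_total (3 / 4) (β + η) with h | h
      · left
        exact min_eq_left h
      · right
        have e : b = β + η := min_eq_right h
        exact hmax b (by rw [e]; linarith) (by linarith) hb2
    have hU := UPP r n m b (ε / 2) (by omega) hr (by linarith) hb2 (by positivity) hcase
    have hmub : mu b ≤ mu β + ε / 8 := by
      have := hmu b β (by linarith) hb2 hβ1 hβ2 (by rw [abs_le]; constructor <;> linarith)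
      have := (abs_le.mp this).2
      linarith
    have hsb : δ ≤ sx b := hsx b hb1 hb2
    calc NN r m (fun X Y => (r : ℝ) * 2 ^ m * 2 ^ ((mu β + ε) * n) < LL (ru n X Y))
        ≤ NN r m (fun X Y => (r : ℝ) * 2 ^ m * 2 ^ ((mu b + ε / 2) * n) < LL (ru n X Y)) := by
          refine NN_mono fun X Y h => lt_of_le_of_lt ?_ h
          refine mul_le_mul_of_nonneg_left ?_ (by positivity)
          refine Real.rpow_le_rpow_of_exponent_le (by norm_num) ?_
          refine mul_le_mul_of_nonneg_right ?_ (by linarith)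
          linarith
      _ ≤ 12 * 2 ^ (-(ε / 2 * sx b * n)) * (4 ^ m) ^ r := hU
      _ ≤ 12 * 2 ^ (-(c' * n)) * (4 ^ m) ^ r := by
          refine mul_le_mul_of_nonneg_right ?_ (by positivity)
          refine mul_le_mul_of_nonneg_left ?_ (by norm_num)
          refine Real.rpow_le_rpow_of_exponent_le (by norm_num) ?_
          have h3 : c' ≤ ε / 2 * sx b := by
            calc c' ≤ ε / 2 * δ := (min_le_left _ _).trans (min_le_left _ _)
              _ ≤ ε / 2 * sx b := by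
                refine mul_le_mul_of_nonneg_left hsb (by positivity)
          have := mul_le_mul_of_nonneg_right h3 (show (0 : ℝ) ≤ n by linarith)
          linarith
  -- the lower bound
  have hlow : NN r m (fun X Y => ¬ ((r : ℝ) * 2 ^ m * 2 ^ ((mu β - ε / 2) * n) ≤ LL (ru n X Y) ∧
      ∃ i, 2 ^ (n + 2) ≤ Y i)) ≤ 2 ^ (-(c' * n)) * (4 ^ m) ^ r := by
    by_cases hA : β ≤ 1 / 2 + η
    · have hO := h2 n hn2 m r (by nlinarith) hr
      have hrk := hmax (1 / 2 + 2 * η) (by linarith) (by linarith) (by linarith)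
      have hrk2 : (r : ℝ) ≤ 2 ^ (ε / 8 * n) := by
        refine hrk.trans (Real.rpow_le_rpow_of_exponent_le (by norm_num) ?_)
        exact mul_le_mul_of_nonneg_right hka0 (by linarith)
      have hmub : mu β ≤ mu (1 / 2) + ε / 8 := by
        have := hmu β (1 / 2) hβ1 hβ2 (by norm_num) (by norm_num)
          (by rw [abs_le]; constructor <;> linarith)
        have := (abs_le.mp this).2
        linarith
      calc NN r m (fun X Y => ¬ ((r : ℝ) * 2 ^ m * 2 ^ ((mu β - ε / 2) * n) ≤ LL (ru n X Y) ∧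
            ∃ i, 2 ^ (n + 2) ≤ Y i))
          ≤ NN r m (fun X Y => ¬ ((2 : ℝ) ^ m * 2 ^ ((mu (1 / 2) - ε / 4) * n) ≤ LL (ru n X Y) ∧
            ∃ i, 2 ^ (n + 2) ≤ Y i)) := by
            refine NN_mono fun X Y h h' => h ⟨le_trans ?_ h'.1, h'.2⟩
            calc (r : ℝ) * 2 ^ m * 2 ^ ((mu β - ε / 2) * n)
                ≤ 2 ^ (ε / 8 * n) * 2 ^ m * 2 ^ ((mu β - ε / 2) * n) := by
                  refine mul_le_mul_of_nonneg_right ?_ (by positivity)
                  exact mul_le_mul_of_nonneg_right hrk2 (by positivity)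
              _ = 2 ^ m * 2 ^ (ε / 8 * n + (mu β - ε / 2) * n) := by
                  rw [Real.rpow_add (by norm_num)]
                  ring
              _ ≤ 2 ^ m * 2 ^ ((mu (1 / 2) - ε / 4) * n) := by
                  refine mul_le_mul_of_nonneg_left ?_ (by positivity)
                  refine Real.rpow_le_rpow_of_exponent_le (by norm_num) ?_
                  nlinarith
        _ ≤ 2 ^ (-(c2 * n)) * (4 ^ m) ^ r := hO
        _ ≤ 2 ^ (-(c' * n)) * (4 ^ m) ^ r := by
            refine mul_le_mul_of_nonneg_right ?_ (by positivity)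
            refine Real.rpow_le_rpow_of_exponent_le (by norm_num) ?_
            have h3 : c' ≤ c2 := min_le_right _ _
            have := mul_le_mul_of_nonneg_right h3 (show (0 : ℝ) ≤ n by linarith)
            linarith
    · rw [not_le] at hA
      have hk := hkad β hA.le hβ2
      have hrk : (2 : ℝ) ^ ((ka (β - η) + min δ (ε / 4)) * n) ≤ r := by
        have e1 : (ka (β - η) + min δ (ε / 4)) ≤ Real.logb 2 r / n := by
          have := min_le_left δ (ε / 4)
          linarith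
        rw [le_div_iff₀ (by linarith)] at e1
        calc (2 : ℝ) ^ ((ka (β - η) + min δ (ε / 4)) * n) ≤ 2 ^ (Real.logb 2 r) :=
              Real.rpow_le_rpow_of_exponent_le (by norm_num) e1
          _ = r := Real.rpow_logb (by norm_num) (by norm_num) (by linarith)
      have hM := h1 n hn1 m r (β - η) (by omega) (by linarith) (by linarith) hrk
      have hmub : mu β ≤ mu (β - η) + ε / 8 := by
        have := hmu β (β - η) hβ1 hβ2 (by linarith) (by linarith)
          (by rw [abs_le]; constructor <;> linarith)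
        have := (abs_le.mp this).2
        linarith
      calc NN r m (fun X Y => ¬ ((r : ℝ) * 2 ^ m * 2 ^ ((mu β - ε / 2) * n) ≤ LL (ru n X Y) ∧
            ∃ i, 2 ^ (n + 2) ≤ Y i))
          ≤ NN r m (fun X Y => ¬ ((r : ℝ) * 2 ^ m * 2 ^ ((mu (β - η) - min δ (ε / 4)) * n) ≤
              LL (ru n X Y) ∧ ∃ i, 2 ^ (m - 1) ≤ Y i)) := by
            refine NN_mono fun X Y h h' => h ⟨le_trans ?_ h'.1, ?_⟩
            · refine mul_le_mul_of_nonneg_left ?_ (by positivity)
              refine Real.rpow_le_rpow_of_exponent_le (by norm_num) ?_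
              refine mul_le_mul_of_nonneg_right ?_ (by linarith)
              have := min_le_right δ (ε / 4)
              linarith
            · obtain ⟨i, hi⟩ := h'.2
              exact ⟨i, (Nat.pow_le_pow_right (by norm_num) (by omega)).trans hi⟩
        _ ≤ 2 ^ (-(n : ℝ)) * (4 ^ m) ^ r := hM
        _ ≤ 2 ^ (-(c' * n)) * (4 ^ m) ^ r := by
            refine mul_le_mul_of_nonneg_right ?_ (by positivity)
            refine Real.rpow_le_rpow_of_exponent_le (by norm_num) ?_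
            have h3 : c' ≤ 1 := (min_le_left _ _).trans (min_le_right _ _)
            have := mul_le_mul_of_nonneg_right h3 (show (0 : ℝ) ≤ n by linarith)
            linarith
  -- together
  have hgood : ∀ X Y : Fin r → ℕ,
      ¬ ((r : ℝ) * 2 ^ m * 2 ^ ((mu β + ε) * n) < LL (ru n X Y)) →
      ((r : ℝ) * 2 ^ m * 2 ^ ((mu β - ε / 2) * n) ≤ LL (ru n X Y) ∧ ∃ i, 2 ^ (n + 2) ≤ Y i) →
      Good ε β n m r X Y := by
    intro X Y hu hl
    rw [not_lt] at hu
    obtain ⟨hl1, hl2⟩ := hl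
    obtain ⟨hlen, hns⟩ := NST r n X Y hl2
    have hLR : (2 : ℝ) ≤ LL (ru n X Y) := by
      refine le_trans ?_ hl1
      calc (2 : ℝ) ≤ 2 ^ (3 : ℝ) := by norm_num
        _ ≤ 2 ^ ((m : ℝ) + (mu β - ε / 2) * n) := by
            refine Real.rpow_le_rpow_of_exponent_le (by norm_num) ?_
            nlinarith
        _ = 2 ^ m * 2 ^ ((mu β - ε / 2) * n) := by
            rw [Real.rpow_add (by norm_num), Real.rpow_natCast]
        _ ≤ (r : ℝ) * 2 ^ m * 2 ^ ((mu β - ε / 2) * n) := by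
            refine mul_le_mul_of_nonneg_right ?_ (by positivity)
            nlinarith [show (0 : ℝ) < 2 ^ m by positivity]
    have hL2 : 2 ≤ LL (ru n X Y) := by exact_mod_cast hLR
    have hcond : (cond (ru n X Y).1 1 0 : ℕ) ≤ 1 := by cases (ru n X Y).1 <;> simp
    have hle : (ps^[2 * n] (wd X Y)).length ≤ LL (ru n X Y) := by omega
    have hge : LL (ru n X Y) ≤ (ps^[2 * n] (wd X Y)).length * 2 := by omega
    have hleR : ((ps^[2 * n] (wd X Y)).length : ℝ) ≤ LL (ru n X Y) := by exact_mod_cast hle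
    have hgeR : (LL (ru n X Y) : ℝ) ≤ (ps^[2 * n] (wd X Y)).length * 2 := by exact_mod_cast hge
    refine ⟨?_, hleR.trans hu, hns⟩
    have e2 : (r : ℝ) * 2 ^ m * 2 ^ ((mu β - ε) * n) * 2 ≤
        (r : ℝ) * 2 ^ m * 2 ^ ((mu β - ε / 2) * n) := by
      calc (r : ℝ) * 2 ^ m * 2 ^ ((mu β - ε) * n) * 2
          = (r : ℝ) * 2 ^ m * 2 ^ ((mu β - ε) * n + 1) := by
            rw [Real.rpow_add (by norm_num), Real.rpow_one]
            ring
        _ ≤ (r : ℝ) * 2 ^ m * 2 ^ ((mu β - ε / 2) * n) := by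
            refine mul_le_mul_of_nonneg_left ?_ (by positivity)
            refine Real.rpow_le_rpow_of_exponent_le (by norm_num) ?_
            nlinarith
    linarith
  calc NN r m (fun X Y => ¬ Good ε β n m r X Y)
      ≤ NN r m (fun X Y => ((r : ℝ) * 2 ^ m * 2 ^ ((mu β + ε) * n) < LL (ru n X Y)) ∨
          ¬ ((r : ℝ) * 2 ^ m * 2 ^ ((mu β - ε / 2) * n) ≤ LL (ru n X Y) ∧
            ∃ i, 2 ^ (n + 2) ≤ Y i)) := by
        refine NN_mono fun X Y h => ?_
        by_contra hc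
        rw [not_or, not_not] at hc
        exact h (hgood X Y hc.1 hc.2)
    _ ≤ _ := NN_or _ _
    _ ≤ 12 * 2 ^ (-(c' * n)) * (4 ^ m) ^ r + 2 ^ (-(c' * n)) * (4 ^ m) ^ r := add_le_add hup hlow
    _ = 13 * 2 ^ (-(c' * n)) * (4 ^ m) ^ r := by ring
    _ ≤ 2 ^ (-(c' / 2 * n)) * (4 ^ m) ^ r := by
        refine mul_le_mul_of_nonneg_right ?_ (by positivity)
        calc (13 : ℝ) * 2 ^ (-(c' * n)) ≤ 2 ^ (4 : ℝ) * 2 ^ (-(c' * n)) := by
              refine mul_le_mul_of_nonneg_right (by norm_num) (by positivity)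
          _ = 2 ^ (4 + -(c' * n)) := by rw [Real.rpow_add (by norm_num)]
          _ ≤ 2 ^ (-(c' / 2 * n)) := by
              refine Real.rpow_le_rpow_of_exponent_le (by norm_num) ?_
              linarith

lemma Good_mono {ε ε' β : ℝ} {n m r : ℕ} {X Y : Fin r → ℕ} (h : ε' ≤ ε)
    (hg : Good ε' β n m r X Y) : Good ε β n m r X Y := by
  obtain ⟨g1, g2, g3⟩ := hg
  have hn0 : (0 : ℝ) ≤ n := Nat.cast_nonneg n
  have e := mul_le_mul_of_nonneg_right h hn0
  refine ⟨le_trans ?_ g1, g2.trans ?_, g3⟩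
  · refine mul_le_mul_of_nonneg_left ?_ (by positivity)
    refine Real.rpow_le_rpow_of_exponent_le (by norm_num) ?_
    linarith
  · refine mul_le_mul_of_nonneg_left ?_ (by positivity)
    refine Real.rpow_le_rpow_of_exponent_le (by norm_num) ?_
    linarith

theorem pf_FIN (NST : T_NST) (UPP : T_UPP) (MNY : T_MNY) (ONE : T_ONE) (ENT : T_ENT)
    (CHO : T_CHO) (GRE : T_GRE) : T_FIN := by
  intro ε hε
  obtain ⟨c, hc, n₀, h⟩ := fin_aux NST UPP MNY ONE ENT CHO GRE (min ε (1 / 2))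
    (lt_min hε (by norm_num)) (min_le_right _ _)
  refine ⟨c, hc, n₀, fun n hn m r hnm hr => ?_⟩
  have h0 : (0 : ℝ) ≤ m := Nat.cast_nonneg m
  have h1 : min ε (1 / 2) ≤ ε := min_le_left _ _
  have h2 := mul_le_mul_of_nonneg_right h1 h0
  obtain ⟨β, hβ, hN⟩ := h n hn m r (by linarith) hr
  have h3 : NN r m (fun X Y => ¬ Good ε β n m r X Y) ≤
      NN r m (fun X Y => ¬ Good (min ε (1 / 2)) β n m r X Y) :=
    NN_mono fun X Y hg hg' => hg (Good_mono h1 hg')
  exact ⟨β, hβ, h3.trans hN⟩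

end Pool.Agent.H70.PT
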