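import Pool.Agent.H70.PT.Targets2

/-!
# De Mol's tag system S₂ on products of blocks (problem MP_c95a35_lc): all but one entry fixed
-/

set_option autoImplicit false

open List Finset Pool.Agent.H68.TG Pool.Agent.H75.RW

namespace Pool.Agent.H70.PT

lemma be_eq {n r : ℕ} {β : ℝ}
    (h : IsGreatest {b : ℝ | 1 / 2 ≤ b ∧ b ≤ 3 / 4 ∧ ka b ≤ Real.logb 2 r / n} β) :
    be n r = β := h.csSup_eq

theorem fib_aux (UPF : T_UPF) (NSX : T_NSX)
    (CHO : T_CHO) (GRE : T_GRE) (ε : ℝ) (hε : 0 < ε) (hε2 : ε ≤ 1 / 2) :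
    ∃ c > (0 : ℝ), ∃ n₀ : ℕ, ∀ n ≥ n₀, ∀ m r : ℕ,
  (n : ℝ) ≤ (1 - ε) * m → 1 ≤ r → ∀ (X Y : Fin r → ℕ) (z : Fin r), (z : ℕ) = 0 →
  (∀ i, X i < 2 ^ m ∧ Y i < 2 ^ m) →
  (({x : ℕ | x < 2 ^ m ∧
    ¬ (((ps^[2 * n] (wd (Function.update X z x) Y)).length : ℝ) ≤
        (r : ℝ) * 2 ^ m * 2 ^ ((mu (be n r) + ε) * n) ∧
      ∀ i < 2 * n, ∀ j ≤ ((ps^[i] (wd (Function.update X z x) Y)).length + 1) / 2,
        2 ≤ (step^[j] (ps^[i] (wd (Function.update X z x) Y))).length)}.ncard : ℕ) : ℝ) ≤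
    2 ^ (-(c * n)) * 2 ^ m := by
  obtain ⟨η, hη, δ, hδ, hη16, hmu, -, -, hsx⟩ := CHO (ε / 8) (by positivity)
  set c' : ℝ := min (ε / 2 * δ) ε with hc'
  have hc'0 : 0 < c' := lt_min (by positivity) hε
  refine ⟨c' / 2, by positivity, max (⌈3 / ε⌉₊ + 1) (⌈10 / c'⌉₊), ?_⟩
  intro n hn m r hnm hr X Y z hz hXY
  have hn3 : ⌈3 / ε⌉₊ + 1 ≤ n := le_trans (le_max_left _ _) hn
  have hn4 : ⌈10 / c'⌉₊ ≤ n := le_trans (le_max_right _ _) hn
  have hn0 : (1 : ℝ) ≤ n := by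
    have : 1 ≤ n := le_trans (Nat.le_add_left 1 _) hn3
    exact_mod_cast this
  have hnε : 3 ≤ ε * n := by
    have : 3 / ε ≤ n := (Nat.le_ceil _).trans (by exact_mod_cast (le_trans (Nat.le_succ _) hn3))
    rw [div_le_iff₀ hε] at this
    linarith
  have hnc : 10 ≤ c' * n := by
    have : 10 / c' ≤ n := (Nat.le_ceil _).trans (by exact_mod_cast hn4)
    rw [div_le_iff₀ hc'0] at this
    linarith
  have hr1 : (1 : ℝ) ≤ r := by exact_mod_cast hr
  have hm0 : (0 : ℝ) ≤ m := Nat.cast_nonneg m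
  have hmn : (n : ℝ) ≤ m := by nlinarith
  have hmR : (n : ℝ) + ε * n ≤ m := by nlinarith
  have hm : n ≤ m := by exact_mod_cast hmn
  have hlog : 0 ≤ Real.logb 2 r := Real.logb_nonneg (by norm_num) hr1
  obtain ⟨β, hβ⟩ := GRE (Real.logb 2 r / n) (by positivity)
  rw [be_eq hβ]
  obtain ⟨⟨hβ1, hβ2, hβ3⟩, hβ4⟩ := hβ
  have hmax : ∀ b, β < b → 1 / 2 ≤ b → b ≤ 3 / 4 → (r : ℝ) ≤ 2 ^ (ka b * n) := by
    intro b hb hb1 hb2
    have : ¬ (ka b ≤ Real.logb 2 r / n) := fun h => absurd (hβ4 ⟨hb1, hb2, h⟩) (not_le.mpr hb)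
    rw [not_le, div_lt_iff₀ (by linarith)] at this
    rw [Real.logb_lt_iff_lt_rpow (by norm_num) (by linarith)] at this
    exact this.le
  set b : ℝ := min (3 / 4) (β + η) with hb
  have hb2 : b ≤ 3 / 4 := min_le_left _ _
  have hb1 : 1 / 2 + η ≤ b := le_min (by linarith) (by linarith)
  have hbβ : β ≤ b := le_min hβ2 (by linarith)
  have hbη : b ≤ β + η := min_le_right _ _
  have hcase : b = 3 / 4 ∨ (r : ℝ) ≤ 2 ^ (ka b * n) := by
    rcases le_total (3 / 4) (β + η) with h | h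
    · left
      exact min_eq_left h
    · right
      have e : b = β + η := min_eq_right h
      exact hmax b (by rw [e]; linarith) (by linarith) hb2
  have hU := UPF r n m b (ε / 2) X Y z hz hm (by linarith) hb2 (by positivity) hcase hXY
  have hmub : mu b ≤ mu β + ε / 8 := by
    have := hmu b β (by linarith) hb2 hβ1 hβ2 (by rw [abs_le]; constructor <;> linarith)
    have := (abs_le.mp this).2
    linarith
  have hsb : δ ≤ sx b := hsx b hb1 hb2
  set A : Set ℕ := {x : ℕ | x < 2 ^ m ∧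
    (r : ℝ) * 2 ^ m * 2 ^ ((mu b + ε / 2) * n) < LL (ru n (Function.update X z x) Y)} with hA
  have hAf : A.Finite := (Set.finite_lt_nat (2 ^ m)).subset fun x hx => hx.1
  have hBf : ({x : ℕ | x < 2 ^ (n + 3)} : Set ℕ).Finite := Set.finite_lt_nat _
  have hBc : ({x : ℕ | x < 2 ^ (n + 3)} : Set ℕ).ncard = 2 ^ (n + 3) := by
    rw [show ({x : ℕ | x < 2 ^ (n + 3)} : Set ℕ) = ((Finset.range (2 ^ (n + 3)) : Finset ℕ) : Set ℕ)
      by ext x; simp, Set.ncard_coe_finset, Finset.card_range]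
  have hsub : {x : ℕ | x < 2 ^ m ∧
    ¬ (((ps^[2 * n] (wd (Function.update X z x) Y)).length : ℝ) ≤
        (r : ℝ) * 2 ^ m * 2 ^ ((mu β + ε) * n) ∧
      ∀ i < 2 * n, ∀ j ≤ ((ps^[i] (wd (Function.update X z x) Y)).length + 1) / 2,
        2 ≤ (step^[j] (ps^[i] (wd (Function.update X z x) Y))).length)} ⊆
      A ∪ {x : ℕ | x < 2 ^ (n + 3)} := by
    intro x hx
    by_contra hcon
    rw [Set.mem_union, not_or] at hcon
    obtain ⟨h1, h2⟩ := hcon
    simp only [Set.mem_setOf_eq, not_lt] at h2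
    obtain ⟨hlen, hns⟩ := NSX r n (Function.update X z x) Y ⟨z, by simpa using h2⟩
    have h3 : ¬ ((r : ℝ) * 2 ^ m * 2 ^ ((mu b + ε / 2) * n) <
        LL (ru n (Function.update X z x) Y)) := fun h => h1 ⟨hx.1, h⟩
    rw [not_lt] at h3
    refine hx.2 ⟨?_, hns⟩
    have h4 : (ps^[2 * n] (wd (Function.update X z x) Y)).length ≤
        LL (ru n (Function.update X z x) Y) := by rw [hlen]; exact Nat.sub_le _ _
    have h5 : ((ps^[2 * n] (wd (Function.update X z x) Y)).length : ℝ) ≤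
        LL (ru n (Function.update X z x) Y) := by exact_mod_cast h4
    refine h5.trans (h3.trans ?_)
    refine mul_le_mul_of_nonneg_left ?_ (by positivity)
    refine Real.rpow_le_rpow_of_exponent_le (by norm_num) ?_
    refine mul_le_mul_of_nonneg_right ?_ (by linarith)
    linarith
  have hcard : (({x : ℕ | x < 2 ^ m ∧
    ¬ (((ps^[2 * n] (wd (Function.update X z x) Y)).length : ℝ) ≤
        (r : ℝ) * 2 ^ m * 2 ^ ((mu β + ε) * n) ∧
      ∀ i < 2 * n, ∀ j ≤ ((ps^[i] (wd (Function.update X z x) Y)).length + 1) / 2,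
        2 ≤ (step^[j] (ps^[i] (wd (Function.update X z x) Y))).length)}.ncard : ℕ) : ℝ) ≤
      (A.ncard : ℝ) + 2 ^ (n + 3) := by
    have e1 := (Set.ncard_le_ncard hsub (hAf.union hBf)).trans (Set.ncard_union_le _ _)
    rw [hBc] at e1
    exact_mod_cast e1
  have hfirst : (A.ncard : ℝ) ≤ 12 * 2 ^ (-(c' * n)) * 2 ^ m := by
    refine hU.trans ?_
    refine mul_le_mul_of_nonneg_right ?_ (by positivity)
    refine mul_le_mul_of_nonneg_left ?_ (by norm_num)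
    refine Real.rpow_le_rpow_of_exponent_le (by norm_num) ?_
    have h3 : c' ≤ ε / 2 * sx b := by
      calc c' ≤ ε / 2 * δ := min_le_left _ _
        _ ≤ ε / 2 * sx b := mul_le_mul_of_nonneg_left hsb (by positivity)
    have := mul_le_mul_of_nonneg_right h3 (show (0 : ℝ) ≤ n by linarith)
    linarith
  have hsecond : (2 : ℝ) ^ (n + 3) ≤ 8 * 2 ^ (-(c' * n)) * 2 ^ m := by
    calc (2 : ℝ) ^ (n + 3) = 8 * 2 ^ (n : ℝ) := by
          rw [Real.rpow_natCast]
          ring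
      _ ≤ 8 * 2 ^ (-(c' * n) + m) := by
          refine mul_le_mul_of_nonneg_left ?_ (by norm_num)
          refine Real.rpow_le_rpow_of_exponent_le (by norm_num) ?_
          have h3 : c' ≤ ε := min_le_right _ _
          have := mul_le_mul_of_nonneg_right h3 (show (0 : ℝ) ≤ n by linarith)
          linarith
      _ = 8 * 2 ^ (-(c' * n)) * 2 ^ m := by
          rw [Real.rpow_add (by norm_num), Real.rpow_natCast]
          ring
  calc (({x : ℕ | x < 2 ^ m ∧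
    ¬ (((ps^[2 * n] (wd (Function.update X z x) Y)).length : ℝ) ≤
        (r : ℝ) * 2 ^ m * 2 ^ ((mu β + ε) * n) ∧
      ∀ i < 2 * n, ∀ j ≤ ((ps^[i] (wd (Function.update X z x) Y)).length + 1) / 2,
        2 ≤ (step^[j] (ps^[i] (wd (Function.update X z x) Y))).length)}.ncard : ℕ) : ℝ)
      ≤ (A.ncard : ℝ) + 2 ^ (n + 3) := hcard
    _ ≤ 12 * 2 ^ (-(c' * n)) * 2 ^ m + 8 * 2 ^ (-(c' * n)) * 2 ^ m := add_le_add hfirst hsecond
    _ = 20 * 2 ^ (-(c' * n)) * 2 ^ m := by ring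
    _ ≤ 2 ^ (-(c' / 2 * n)) * 2 ^ m := by
        refine mul_le_mul_of_nonneg_right ?_ (by positivity)
        calc (20 : ℝ) * 2 ^ (-(c' * n)) ≤ 2 ^ (5 : ℝ) * 2 ^ (-(c' * n)) := by
              refine mul_le_mul_of_nonneg_right (by norm_num) (by positivity)
          _ = 2 ^ (5 + -(c' * n)) := by rw [Real.rpow_add (by norm_num)]
          _ ≤ 2 ^ (-(c' / 2 * n)) := by
              refine Real.rpow_le_rpow_of_exponent_le (by norm_num) ?_
              linarith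

theorem pf_FIB (UPF : T_UPF) (NSX : T_NSX) (CHO : T_CHO) (GRE : T_GRE) : T_FIB := by
  intro ε hε
  obtain ⟨c, hc, n₀, h⟩ := fib_aux UPF NSX CHO GRE (min ε (1 / 2))
    (lt_min hε (by norm_num)) (min_le_right _ _)
  refine ⟨c, hc, n₀, fun n hn m r hnm hr X Y z hz hXY => ?_⟩
  have h0 : (0 : ℝ) ≤ m := Nat.cast_nonneg m
  have hn0 : (0 : ℝ) ≤ n := Nat.cast_nonneg n
  have h1 : min ε (1 / 2) ≤ ε := min_le_left _ _
  have h2 := mul_le_mul_of_nonneg_right h1 h0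
  have h3 := mul_le_mul_of_nonneg_right h1 hn0
  refine le_trans ?_ (h n hn m r (by linarith) hr X Y z hz hXY)
  have hfin : ({x : ℕ | x < 2 ^ m ∧
    ¬ (((ps^[2 * n] (wd (Function.update X z x) Y)).length : ℝ) ≤
        (r : ℝ) * 2 ^ m * 2 ^ ((mu (be n r) + min ε (1 / 2)) * n) ∧
      ∀ i < 2 * n, ∀ j ≤ ((ps^[i] (wd (Function.update X z x) Y)).length + 1) / 2,
        2 ≤ (step^[j] (ps^[i] (wd (Function.update X z x) Y))).length)} : Set ℕ).Finite :=
    (Set.finite_lt_nat (2 ^ m)).subset fun x hx => hx.1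
  refine Nat.cast_le.mpr (Set.ncard_le_ncard ?_ hfin)
  intro x hx
  refine ⟨hx.1, fun hg => hx.2 ⟨hg.1.trans ?_, hg.2⟩⟩
  refine mul_le_mul_of_nonneg_left ?_ (by positivity)
  refine Real.rpow_le_rpow_of_exponent_le (by norm_num) ?_
  linarith

end Pool.Agent.H70.PT
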