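import Pool.Agent.H70.PT.Targets

/-!
# One block (board bwp_modules, row ONE)
-/

set_option autoImplicit false

open List Finset Pool.Agent.H68.TG Pool.Agent.H75.RW Pool.Agent.H70.PT

namespace Pool.Agent.H70.PT.ONE

theorem markov (r m : ℕ) (p : (Fin r → ℕ) → (Fin r → ℕ) → Prop)
    (F : (Fin r → ℕ) → (Fin r → ℕ) → ℝ) (c : ℝ) (hF : ∀ X Y, 0 ≤ F X Y)
    (hp : ∀ X Y, p X Y → c ≤ F X Y) : NN r m p * c ≤ Pool.Agent.H70.PT.SS r m F := by
  classical
  have h1 : NN r m p = ((univ.filter fun q : (Fin r → Fin (2 ^ m)) × (Fin r → Fin (2 ^ m)) =>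
      p (fun i => q.1 i) (fun i => q.2 i)).card : ℝ) := by
    unfold NN
    rw [Set.ncard_eq_toFinset_card']
    congr 2
    ext q
    simp
  have h2 : Pool.Agent.H70.PT.SS r m F =
      ∑ q : (Fin r → Fin (2 ^ m)) × (Fin r → Fin (2 ^ m)),
      F (fun i => q.1 i) (fun i => q.2 i) := by
    unfold Pool.Agent.H70.PT.SS
    rw [Fintype.sum_prod_type]
  rw [h1, h2]
  calc ((univ.filter fun q : (Fin r → Fin (2 ^ m)) × (Fin r → Fin (2 ^ m)) =>
      p (fun i => q.1 i) (fun i => q.2 i)).card : ℝ) * c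
      = ∑ _q ∈ univ.filter (fun q : (Fin r → Fin (2 ^ m)) × (Fin r → Fin (2 ^ m)) =>
        p (fun i => q.1 i) (fun i => q.2 i)), c := by
        rw [sum_const, nsmul_eq_mul]
    _ ≤ ∑ q ∈ univ.filter (fun q : (Fin r → Fin (2 ^ m)) × (Fin r → Fin (2 ^ m)) =>
        p (fun i => q.1 i) (fun i => q.2 i)), F (fun i => q.1 i) (fun i => q.2 i) :=
        sum_le_sum fun q hq => hp _ _ (Finset.mem_filter.mp hq).2
    _ ≤ _ := sum_le_sum_of_subset_of_nonneg (filter_subset _ _) fun q _ _ => hF _ _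

/-- one coordinate is small -/
theorem small (r m : ℕ) (z : Fin r) (T : ℝ) (hT : 1 ≤ T) :
    NN r m (fun _ Y => (Y z : ℝ) < T) ≤ 2 * T / 2 ^ m * (4 ^ m) ^ r := by
  classical
  have hM := markov r m (fun _ Y => (Y z : ℝ) < T) (fun _ Y => if (Y z : ℝ) < T then 1 else 0) 1
    (fun _ Y => by split_ifs <;> norm_num) (fun _ Y h => by rw [if_pos h])
  rw [mul_one] at hM
  refine hM.trans ?_
  unfold Pool.Agent.H70.PT.SS
  have h1 : ∑ Y : Fin r → Fin (2 ^ m), (if (((Y z : Fin (2 ^ m)) : ℕ) : ℝ) < T then (1 : ℝ) else 0) =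
      (2 ^ m) ^ (r - 1) * ∑ y : Fin (2 ^ m), (if ((y : ℕ) : ℝ) < T then (1 : ℝ) else 0) := by
    rw [← (Equiv.funSplitAt z (Fin (2 ^ m))).symm.sum_comp]
    rw [Fintype.sum_prod_type, mul_sum]
    refine sum_congr rfl fun y _ => ?_
    have h2 : ∀ x : { j // j ≠ z } → Fin (2 ^ m),
        (Equiv.funSplitAt z (Fin (2 ^ m))).symm (y, x) z = y := by
      intro x
      simp [Equiv.funSplitAt, Equiv.piSplitAt]
    simp only [h2]
    rw [sum_const, card_univ, Fintype.card_fun, Fintype.card_fin, nsmul_eq_mul]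
    have h3 : Fintype.card { j : Fin r // j ≠ z } = r - 1 := by
      rw [Fintype.card_subtype_compl, Fintype.card_fin, Fintype.card_unique]
    rw [h3]
    push_cast
    ring
  have h4 : ∑ y : Fin (2 ^ m), (if ((y : ℕ) : ℝ) < T then (1 : ℝ) else 0) ≤ 2 * T := by
    rw [Fin.sum_univ_eq_sum_range (fun y : ℕ => if (y : ℝ) < T then (1 : ℝ) else 0) (2 ^ m),
      ← sum_filter, sum_const, nsmul_eq_mul, mul_one]
    have h5 : (Finset.range (2 ^ m)).filter (fun y : ℕ => (y : ℝ) < T) ⊆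
        Finset.range (⌊T⌋₊ + 1) := by
      intro y hy
      rw [Finset.mem_filter] at hy
      rw [Finset.mem_range]
      have : y ≤ ⌊T⌋₊ := Nat.le_floor hy.2.le
      omega
    have h6 : (((Finset.range (2 ^ m)).filter (fun y : ℕ => (y : ℝ) < T)).card : ℝ) ≤
        (⌊T⌋₊ : ℝ) + 1 := by
      have := card_le_card h5
      rw [card_range] at this
      exact_mod_cast this
    have h7 : (⌊T⌋₊ : ℝ) ≤ T := Nat.floor_le (by linarith)
    linarith
  rw [sum_const, card_univ, Fintype.card_fun, Fintype.card_fin, Fintype.card_fin, nsmul_eq_mul, h1]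
  have hr : r = (r - 1) + 1 := by
    have := z.2
    omega
  have h8 : (((2 : ℝ) ^ m) ^ r) * ((2 ^ m) ^ (r - 1) * (2 * T)) =
      2 * T / 2 ^ m * (4 ^ m) ^ r := by
    have e : (4 : ℝ) ^ m = 2 ^ m * 2 ^ m := by rw [← mul_pow]; norm_num
    have hp : (0 : ℝ) < 2 ^ m := by positivity
    rw [e, mul_pow]
    have e2 : ((2 : ℝ) ^ m) ^ r = (2 ^ m) ^ (r - 1) * 2 ^ m := by
      conv_lhs => rw [hr, pow_succ]
    field_simp
    rw [e2]
    ring
  calc (((2 ^ m) ^ r : ℕ) : ℝ) * ((2 ^ m) ^ (r - 1) *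
        ∑ y : Fin (2 ^ m), (if ((y : ℕ) : ℝ) < T then (1 : ℝ) else 0))
      ≤ (((2 : ℝ) ^ m) ^ r) * ((2 ^ m) ^ (r - 1) * (2 * T)) := by
        push_cast
        refine mul_le_mul_of_nonneg_left ?_ (by positivity)
        exact mul_le_mul_of_nonneg_left h4 (by positivity)
    _ = _ := h8

/-- few factors three -/
theorem few (MOM : T_MOM) (r n m : ℕ) (z : Fin r) (ε : ℝ) (hε : 0 < ε) (hnm : n ≤ m) :
    NN r m (fun X Y => (QQ n (false, X, Y) z : ℝ) < (1 / 2 - ε / 4) * n) ≤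
      Real.exp (-(ε ^ 2 / 8 * n)) * (4 ^ m) ^ r := by
  obtain ⟨w, hw⟩ : ∃ w : ℝ, w = Real.exp (-ε) := ⟨_, rfl⟩
  have hw0 : 0 < w := by rw [hw]; exact Real.exp_pos _
  have hM := markov r m (fun X Y => (QQ n (false, X, Y) z : ℝ) < (1 / 2 - ε / 4) * n)
    (fun X Y => w ^ QQ n (false, X, Y) z) (Real.exp (-ε * ((1 / 2 - ε / 4) * n)))
    (fun X Y => by positivity) (fun X Y h => by
      rw [hw, ← Real.exp_nat_mul]
      refine Real.exp_le_exp.mpr ?_
      nlinarith)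
  rw [(MOM r n m z w hnm).2] at hM
  have hc : (1 + w) / 2 ≤ Real.exp (-ε / 2 + ε ^ 2 / 8) := by
    have h1 : (1 + w) / 2 = Real.exp (-ε / 2) * Real.cosh (ε / 2) := by
      rw [Real.cosh_eq, hw, mul_div_assoc', mul_add, ← Real.exp_add, ← Real.exp_add]
      congr 2
      · rw [show -ε / 2 + ε / 2 = 0 by ring, Real.exp_zero]
      · congr 1
        ring
    have h2 : Real.cosh (ε / 2) ≤ Real.exp (ε ^ 2 / 8) := by
      have := Real.cosh_le_exp_half_sq (ε / 2)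
      refine this.trans (le_of_eq ?_)
      congr 1
      ring
    rw [h1, Real.exp_add]
    exact mul_le_mul_of_nonneg_left h2 (Real.exp_pos _).le
  have h3 : ((1 + w) / 2) ^ n ≤ Real.exp (n * (-ε / 2 + ε ^ 2 / 8)) := by
    rw [Real.exp_nat_mul]
    exact pow_le_pow_left₀ (by positivity) hc n
  have h4 : (0 : ℝ) < Real.exp (-ε * ((1 / 2 - ε / 4) * n)) := Real.exp_pos _
  refine le_of_mul_le_mul_right ?_ h4
  calc _ ≤ (4 ^ m) ^ r * ((1 + w) / 2) ^ n := hM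
    _ ≤ (4 ^ m) ^ r * Real.exp (n * (-ε / 2 + ε ^ 2 / 8)) :=
        mul_le_mul_of_nonneg_left h3 (by positivity)
    _ = Real.exp (-(ε ^ 2 / 8 * n)) * (4 ^ m) ^ r * Real.exp (-ε * ((1 / 2 - ε / 4) * n)) := by
        have : Real.exp (n * (-ε / 2 + ε ^ 2 / 8)) =
            Real.exp (-(ε ^ 2 / 8 * n)) * Real.exp (-ε * ((1 / 2 - ε / 4) * n)) := by
          rw [← Real.exp_add]
          congr 1
          ring
        rw [this]
        ring

theorem pf_ONE (MOM : T_MOM) (SIZ : T_SIZ) (ENT : T_ENT) : T_ONE := by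
  intro ε hε hε2
  obtain ⟨-, -, -, hmu, -⟩ := ENT
  have hl3 : Real.logb 2 3 ≤ 2 := by
    rw [Real.logb_le_iff_le_rpow (by norm_num) (by norm_num)]
    norm_num
  -- the constant
  set c' : ℝ := min (ε / 2) (ε ^ 2 / 8) with hc'
  have hc'0 : 0 < c' := by positivity
  refine ⟨c' / 2, by positivity, max (⌈6 / ε⌉₊ + 1) (⌈4 / c'⌉₊), ?_⟩
  intro n hn m r hnm hr
  have hn3 : ⌈6 / ε⌉₊ + 1 ≤ n := le_trans (le_max_left _ _) hn
  have hn4 : ⌈4 / c'⌉₊ ≤ n := le_trans (le_max_right _ _) hn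
  have hn0 : (1 : ℝ) ≤ n := by
    have : 1 ≤ n := le_trans (Nat.le_add_left 1 _) hn3
    exact_mod_cast this
  have hnε : 6 ≤ ε * n := by
    have : 6 / ε ≤ n := (Nat.le_ceil _).trans (by exact_mod_cast (le_trans (Nat.le_succ _) hn3))
    rw [div_le_iff₀ hε] at this
    linarith
  have hnc : 4 ≤ c' * n := by
    have : 4 / c' ≤ n := (Nat.le_ceil _).trans (by exact_mod_cast hn4)
    rw [div_le_iff₀ hc'0] at this
    linarith
  have hm0 : (0 : ℝ) ≤ m := Nat.cast_nonneg m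
  have hmn : (n : ℝ) ≤ m := by nlinarith
  have hmR : (n : ℝ) + ε * n ≤ m := by nlinarith
  have hm : n ≤ m := by exact_mod_cast hmn
  obtain ⟨z, hz⟩ : ∃ z : Fin r, (z : ℕ) = 0 := ⟨⟨0, hr⟩, rfl⟩
  -- the threshold for `Y z`
  obtain ⟨T, hT⟩ : ∃ T : ℝ, T = (2 : ℝ) ^ ((m : ℝ) - ε / 2 * n) := ⟨_, rfl⟩
  have hT1 : 1 ≤ T := by
    rw [hT]
    exact Real.one_le_rpow (by norm_num) (by nlinarith)
  have hTn : (2 : ℝ) ^ (n + 3) ≤ T := by
    rw [hT, ← Real.rpow_natCast]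
    refine Real.rpow_le_rpow_of_exponent_le (by norm_num) ?_
    push_cast
    linarith
  have hgood : ∀ X Y : Fin r → ℕ, ¬ ((Y z : ℝ) < T) →
      ¬ ((QQ n (false, X, Y) z : ℝ) < (1 / 2 - ε / 4) * n) →
      ((2 : ℝ) ^ m * 2 ^ ((mu (1 / 2) - ε) * n) ≤ LL (ru n X Y) ∧ ∃ i, 2 ^ (n + 2) ≤ Y i) := by
    intro X Y h1 h2
    rw [not_lt] at h1 h2
    constructor
    · have hs := (SIZ r n (false, X, Y) z).2.1
      simp only at hs
      have hYn : (2 : ℝ) ^ n ≤ Y z / 2 := by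
        have : (2 : ℝ) ^ (n + 3) = 8 * 2 ^ n := by ring
        have h3 : (0 : ℝ) < 2 ^ n := by positivity
        linarith
      have h4 : (3 : ℝ) ^ ((1 / 2 - ε / 4) * n) ≤ 3 ^ QQ n (false, X, Y) z := by
        rw [← Real.rpow_natCast]
        exact Real.rpow_le_rpow_of_exponent_le (by norm_num) h2
      have h5 : (3 : ℝ) ^ ((1 / 2 - ε / 4) * n) * (T / 2) ≤
          2 ^ n * ((nx^[n] (false, X, Y)).2.2 z : ℝ) := by
        refine le_trans ?_ hs
        refine mul_le_mul h4 (by linarith) (by linarith) (by positivity)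
      have h6 : 2 * ((nx^[n] (false, X, Y)).2.2 z : ℝ) ≤ LL (ru n X Y) := by
        unfold LL ru
        have : (nx^[n] (false, X, Y)).2.1 z + 2 * (nx^[n] (false, X, Y)).2.2 z ≤
            ∑ i, ((nx^[n] (false, X, Y)).2.1 i + 2 * (nx^[n] (false, X, Y)).2.2 i) :=
          Finset.single_le_sum (f := fun i => (nx^[n] (false, X, Y)).2.1 i +
            2 * (nx^[n] (false, X, Y)).2.2 i) (fun i _ => Nat.zero_le _) (Finset.mem_univ z)
        have h7 : 2 * (nx^[n] (false, X, Y)).2.2 z ≤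
            ∑ i, ((nx^[n] (false, X, Y)).2.1 i + 2 * (nx^[n] (false, X, Y)).2.2 i) := by omega
        exact_mod_cast h7
      refine le_trans ?_ h6
      have h8 : (2 : ℝ) ^ n * ((2 : ℝ) ^ m * 2 ^ ((mu (1 / 2) - ε) * n)) ≤
          3 ^ ((1 / 2 - ε / 4) * n) * T := by
        have e3 : (3 : ℝ) = 2 ^ (Real.logb 2 3) := (Real.rpow_logb (by norm_num) (by norm_num)
          (by norm_num)).symm
        have e4 : (3 : ℝ) ^ ((1 / 2 - ε / 4) * n) =
            2 ^ (Real.logb 2 3 * ((1 / 2 - ε / 4) * n)) := by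
          conv_lhs => rw [e3]
          rw [← Real.rpow_mul (by norm_num)]
        rw [e4, hT, ← Real.rpow_natCast, ← Real.rpow_natCast, ← Real.rpow_add (by norm_num),
          ← Real.rpow_add (by norm_num), ← Real.rpow_add (by norm_num)]
        refine Real.rpow_le_rpow_of_exponent_le (by norm_num) ?_
        rw [hmu]
        nlinarith
      have h9 : (0 : ℝ) < 2 ^ n := by positivity
      nlinarith
    · refine ⟨z, ?_⟩
      have h3 : (2 : ℝ) ^ (n + 2) ≤ Y z := by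
        have e : (2 : ℝ) ^ (n + 3) = 2 * 2 ^ (n + 2) := by ring
        have : (0 : ℝ) < 2 ^ (n + 2) := by positivity
        linarith
      exact_mod_cast h3
  have hsmall := small r m z T hT1
  have hfew := few MOM r n m z ε hε hm
  have hT2 : 2 * T / 2 ^ m = 2 * (2 : ℝ) ^ (-(ε / 2 * n)) := by
    rw [hT, Real.rpow_sub (by norm_num), Real.rpow_natCast, Real.rpow_neg (by norm_num)]
    field_simp
  have hexp : Real.exp (-(ε ^ 2 / 8 * n)) ≤ 2 ^ (-(ε ^ 2 / 8 * n)) := by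
    rw [Real.rpow_def_of_pos (by norm_num)]
    refine Real.exp_le_exp.mpr ?_
    have h1 : Real.log 2 ≤ 1 := by linarith [Real.log_two_lt_d9]
    have h2 : 0 ≤ ε ^ 2 / 8 * n := by positivity
    nlinarith
  have hpow1 : (2 : ℝ) ^ (-(ε / 2 * n)) ≤ 2 ^ (-(c' * n)) := by
    refine Real.rpow_le_rpow_of_exponent_le (by norm_num) ?_
    have := mul_le_mul_of_nonneg_right (min_le_left (ε / 2) (ε ^ 2 / 8))
      (show (0 : ℝ) ≤ n by linarith)
    linarith
  have hpow2 : (2 : ℝ) ^ (-(ε ^ 2 / 8 * n)) ≤ 2 ^ (-(c' * n)) := by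
    refine Real.rpow_le_rpow_of_exponent_le (by norm_num) ?_
    have := mul_le_mul_of_nonneg_right (min_le_right (ε / 2) (ε ^ 2 / 8))
      (show (0 : ℝ) ≤ n by linarith)
    linarith
  have h4p : (0 : ℝ) ≤ (4 ^ m) ^ r := by positivity
  have hsub : NN r m (fun X Y => ¬ ((2 : ℝ) ^ m * 2 ^ ((mu (1 / 2) - ε) * n) ≤ LL (ru n X Y) ∧
      ∃ i, 2 ^ (n + 2) ≤ Y i)) ≤ NN r m (fun _ Y => (Y z : ℝ) < T) +
      NN r m (fun X Y => (QQ n (false, X, Y) z : ℝ) < (1 / 2 - ε / 4) * n) := by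
    have h1 : ({q : (Fin r → Fin (2 ^ m)) × (Fin r → Fin (2 ^ m)) |
        (fun X Y => ¬ ((2 : ℝ) ^ m * 2 ^ ((mu (1 / 2) - ε) * n) ≤ LL (ru n X Y) ∧
      ∃ i, 2 ^ (n + 2) ≤ Y i)) (fun i => (q.1 i : ℕ)) (fun i => (q.2 i : ℕ))}).ncard ≤
        ({q : (Fin r → Fin (2 ^ m)) × (Fin r → Fin (2 ^ m)) |
        ((fun i => (q.2 i : ℕ)) z : ℝ) < T} ∪ {q : (Fin r → Fin (2 ^ m)) × (Fin r → Fin (2 ^ m)) |
        (QQ n (false, (fun i => (q.1 i : ℕ)), (fun i => (q.2 i : ℕ))) z : ℝ) <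
          (1 / 2 - ε / 4) * n}).ncard := by
      refine Set.ncard_le_ncard ?_ (Set.toFinite _)
      intro q hq
      by_contra hcon
      rw [Set.mem_union, not_or] at hcon
      exact hq (hgood _ _ hcon.1 hcon.2)
    have h2 := h1.trans (Set.ncard_union_le _ _)
    unfold NN
    exact_mod_cast h2
  calc _ ≤ _ := hsub
    _ ≤ 2 * T / 2 ^ m * (4 ^ m) ^ r + Real.exp (-(ε ^ 2 / 8 * n)) * (4 ^ m) ^ r :=
        add_le_add hsmall hfew
    _ ≤ 3 * 2 ^ (-(c' * n)) * (4 ^ m) ^ r := by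
        rw [hT2]
        have h1 : 2 * (2 : ℝ) ^ (-(ε / 2 * n)) + Real.exp (-(ε ^ 2 / 8 * n)) ≤
            3 * 2 ^ (-(c' * n)) := by linarith
        calc _ = (2 * (2 : ℝ) ^ (-(ε / 2 * n)) + Real.exp (-(ε ^ 2 / 8 * n))) * (4 ^ m) ^ r := by
              ring
          _ ≤ _ := mul_le_mul_of_nonneg_right h1 h4p
    _ ≤ 2 ^ (-(c' / 2 * n)) * (4 ^ m) ^ r := by
        refine mul_le_mul_of_nonneg_right ?_ h4p
        calc (3 : ℝ) * 2 ^ (-(c' * n)) ≤ 2 ^ (2 : ℝ) * 2 ^ (-(c' * n)) := by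
              refine mul_le_mul_of_nonneg_right (by norm_num) (by positivity)
          _ = 2 ^ (2 + -(c' * n)) := by rw [Real.rpow_add (by norm_num)]
          _ ≤ 2 ^ (-(c' / 2 * n)) := by
              refine Real.rpow_le_rpow_of_exponent_le (by norm_num) ?_
              linarith

end Pool.Agent.H70.PT.ONE
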