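import Pool.Agent.H70.PT.Asm
import Pool.Agent.H70.PT.FIB
import Pool.Agent.H70.PT.ONE
import Pool.Agent.H1.BW.CHE
import Pool.Agent.H1.BW.TOC
import Pool.Agent.H11.BWP.LLN
import Pool.Agent.H11.BWP.MEA
import Pool.Agent.H11.BWP.MOF
import Pool.Agent.H12.PT.IDN
import Pool.Agent.H12.PT.NSX
import Pool.Agent.H13.PT.MOM
import Pool.Agent.H13.PT.TAI
import Pool.Agent.H17.BWP.LOW
import Pool.Agent.H17.BWP.RHO
import Pool.Agent.H17.BWP.TOA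
import Pool.Agent.H19.BW.TIM
import Pool.Agent.H19.BW.TOB
import Pool.Agent.H32.PT.CNT
import Pool.Agent.H32.PT.NST
import Pool.Agent.H34.BW.ENT
import Pool.Agent.H34.BW.LEN
import Pool.Agent.H34.BW.SIZ
import Pool.Agent.H42.BW.GRE
import Pool.Agent.H60.BWP.LLA
import Pool.Agent.H60.BWP.LLB
import Pool.Agent.H60.BWP.VRC
import Pool.Agent.H63.PT.UPP
import Pool.Agent.H67.PT.WRD
import Pool.Agent.H7.PT.HIB
import Pool.Agent.H72.PT.CHO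
import Pool.Agent.H72.PT.UPF
import Pool.Agent.H74.BWP.BIN
import Pool.Agent.H89.PT.MNY

/-!
# De Mol's tag system S₂ on products of blocks (problem MP_c95a35_lc): the theorems
-/

set_option autoImplicit false

namespace Pool.Agent.H70.PT

theorem x_CNT : T_CNT := Pool.Agent.H32.PT.pf_CNT

theorem x_HIB : T_HIB := Pool.Agent.H7.PT.pf_HIB x_CNT

theorem x_TOA : T_TOA := Pool.Agent.H17.BWP.pf_TOA

theorem x_TOB : T_TOB := Pool.Agent.H19.BW.pf_TOB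

theorem x_MOM : T_MOM := Pool.Agent.H13.PT.pf_MOM x_HIB x_TOA

theorem x_SIZ : T_SIZ := Pool.Agent.H34.BW.pf_SIZ

theorem x_LEN : T_LEN := Pool.Agent.H34.BW.pf_LEN

theorem x_WRD : T_WRD := Pool.Agent.H67.PT.pf_WRD

theorem x_NST : T_NST := Pool.Agent.H32.PT.pf_NST x_WRD x_LEN x_SIZ

theorem x_NSX : T_NSX := Pool.Agent.H12.PT.pf_NSX x_WRD x_LEN x_SIZ

theorem x_IDN : T_IDN := Pool.Agent.H12.PT.pf_IDN

theorem x_ENT : T_ENT := Pool.Agent.H34.BW.pf_ENT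

theorem x_CHO : T_CHO := Pool.Agent.H72.PT.pf_CHO x_ENT

theorem x_GRE : T_GRE := Pool.Agent.H42.BW.pf_GRE x_ENT

theorem x_LOW : T_LOW := Pool.Agent.H17.BWP.pf_LOW x_HIB x_TOB

theorem x_UPP : T_UPP := Pool.Agent.H63.PT.pf_UPP x_MOM x_SIZ x_IDN

theorem x_UPF : T_UPF := Pool.Agent.H72.PT.pf_UPF Pool.Agent.H11.BWP.pf_MOF x_SIZ x_IDN

theorem x_MNY : T_MNY := Pool.Agent.H89.PT.pf_MNY x_LOW (Pool.Agent.H19.BW.pf_LBD x_SIZ)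
  Pool.Agent.H74.BWP.pf_BIN

theorem x_ONE : T_ONE := Pool.Agent.H70.PT.ONE.pf_ONE x_MOM x_SIZ x_ENT

theorem x_FIN : T_FIN := pf_FIN x_NST x_UPP x_MNY x_ONE x_ENT x_CHO x_GRE

theorem x_FIB : T_FIB := pf_FIB x_UPF x_NSX x_CHO x_GRE

theorem x_LLB : Pool.Agent.H75.PT.T_LLB :=
  Pool.Agent.H60.BWP.pf_LLB
    (Pool.Agent.H60.BWP.pf_LLA
      (Pool.Agent.H1.BW.pf_CHE x_HIB
        (Pool.Agent.H60.BWP.pf_VRC x_TOB Pool.Agent.H1.BW.pf_TOC) Pool.Agent.H13.PT.pf_TAI)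
      (Pool.Agent.H11.BWP.pf_MEA x_HIB x_TOB Pool.Agent.H1.BW.pf_TOC) Pool.Agent.H13.PT.pf_TAI
      (Pool.Agent.H19.BW.TIM.pf_DEC x_SIZ))
    Pool.Agent.H13.PT.pf_TAI (Pool.Agent.H17.BWP.pf_RHO x_ENT) x_ENT

theorem x_LLN : Pool.Agent.H75.PT.T_LLN :=
  Pool.Agent.H11.BWP.pf_LLN x_LLB x_NST x_LOW x_LEN Pool.Agent.H19.BW.TIM.pf_TIM

end Pool.Agent.H70.PT
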