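import Pool.Agent.H75.RW.Defs

/-!
# De Mol's tag system S₂ on products of random blocks (problem MP_c95a35_lc): definitions
-/

set_option autoImplicit false

open List Finset Pool.Agent.H68.TG Pool.Agent.H75.RW

namespace Pool.Agent.H70.PT

/-! ### The statement -/

/-- one pass: `(|w| + 1) / 2` steps -/
def ps (w : List (Fin 3)) : List (Fin 3) := step^[(w.length + 1) / 2] w

/-- the word `0^(X 0) (12)^(Y 0) 0^(X 1) (12)^(Y 1) ...` -/
def wd {r : ℕ} (X Y : Fin r → ℕ) : List (Fin 3) := prodb (List.ofFn fun i => (X i, Y i))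

/-- the entropy, in bits -/
noncomputable def H (b : ℝ) : ℝ := -(b * Real.logb 2 b + (1 - b) * Real.logb 2 (1 - b))

/-- the exponent of the length -/
noncomputable def mu (b : ℝ) : ℝ := H b + b * Real.logb 2 3 - 2

/-- the computation on the word of `X`, `Y` is as predicted by `β` -/
def Good (ε β : ℝ) (n m r : ℕ) (X Y : Fin r → ℕ) : Prop :=
  (r : ℝ) * 2 ^ m * 2 ^ ((mu β - ε) * n) ≤ (ps^[2 * n] (wd X Y)).length ∧
  ((ps^[2 * n] (wd X Y)).length : ℝ) ≤ (r : ℝ) * 2 ^ m * 2 ^ ((mu β + ε) * n) ∧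
  ∀ i < 2 * n, ∀ j ≤ ((ps^[i] (wd X Y)).length + 1) / 2,
    2 ≤ (step^[j] (ps^[i] (wd X Y))).length

/-! ### The process -/

/-- the state after the first `i` numbers of `X`, from the state `a` -/
def pst {r : ℕ} (a : Bool) (X : Fin r → ℕ) (i : ℕ) : Bool :=
  xor a (∑ j : Fin r, if (j : ℕ) < i then X j else 0).bodd

/-- configurations: the state, the sizes of the blocks of `0`, the sizes of the blocks of `12` -/
abbrev Cf (r : ℕ) : Type := Bool × (Fin r → ℕ) × (Fin r → ℕ)

/-- the states of the second pass -/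
def sb {r : ℕ} (q : Cf r) (i : ℕ) : Bool := pst (pst q.1 q.2.1 r) q.2.2 i

/-- the double pass -/
def nx {r : ℕ} (q : Cf r) : Cf r :=
  (sb q r, fun i => t3 (sb q i) (hf (pst q.1 q.2.1 i) (q.2.1 i)),
    fun i => hf (sb q i) (t3 (pst q.1 q.2.1 (i + 1)) (q.2.2 i)))

/-- a factor three for the block of `0` -/
def cP {r : ℕ} (q : Cf r) (i : Fin r) : ℕ := cond (sb q i) 1 0

/-- a factor three for the block of `12` -/
def cQ {r : ℕ} (q : Cf r) (i : Fin r) : ℕ := cond (pst q.1 q.2.1 (i + 1)) 1 0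

/-- the number of factors three in `n` double passes, for the blocks of `0` -/
def PP {r : ℕ} (n : ℕ) (q : Cf r) (i : Fin r) : ℕ := ∑ j ∈ Finset.range n, cP (nx^[j] q) i

/-- the number of factors three in `n` double passes, for the blocks of `12` -/
def QQ {r : ℕ} (n : ℕ) (q : Cf r) (i : Fin r) : ℕ := ∑ j ∈ Finset.range n, cQ (nx^[j] q) i

/-- the length of the word of the configuration, in the state `false` -/
def LL {r : ℕ} (q : Cf r) : ℕ := ∑ i, (q.2.1 i + 2 * q.2.2 i)

/-- the symbols of the word of `X`, `Y` -/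
def bw {r : ℕ} (X Y : Fin r → ℕ) : List Bool :=
  (List.ofFn fun i => (X i, Y i)).flatMap fun b => replicate b.1 false ++ replicate b.2 true

/-- the coins as numbers -/
def tn {r : ℕ} (c : Fin r → Bool) (i : Fin r) : ℕ := cond (c i) 1 0

/-- the sum of `f (P, Q)` over all coins of `n` double passes, from the state `a` and the
counters `P`, `Q` -/
noncomputable def tot {r : ℕ} (f : (Fin r → ℕ) → (Fin r → ℕ) → ℝ) :
    ℕ → Bool → (Fin r → ℕ) → (Fin r → ℕ) → ℝ
  | 0, _, P, Q => f P Q
  | n + 1, a, P, Q => ∑ c : Fin r → Bool, ∑ d : Fin r → Bool,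
      tot f n (sb (a, tn c, tn d) r) (fun i => P i + cP (a, tn c, tn d) i)
        (fun i => Q i + cQ (a, tn c, tn d) i)

/-- the sum over all pairs of vectors of numbers below `2 ^ m` -/
noncomputable def SS (r m : ℕ) (F : (Fin r → ℕ) → (Fin r → ℕ) → ℝ) : ℝ :=
  ∑ X : Fin r → Fin (2 ^ m), ∑ Y : Fin r → Fin (2 ^ m), F (fun i => X i) (fun i => Y i)

/-- the number of pairs of vectors of numbers below `2 ^ m` with the property `p` -/
noncomputable def NN (r m : ℕ) (p : (Fin r → ℕ) → (Fin r → ℕ) → Prop) : ℝ :=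
  ({q : (Fin r → Fin (2 ^ m)) × (Fin r → Fin (2 ^ m)) |
    p (fun i => q.1 i) (fun i => q.2 i)}.ncard : ℕ)

/-- the state of the process after `n` double passes -/
def ru {r : ℕ} (n : ℕ) (X Y : Fin r → ℕ) : Cf r := nx^[n] (false, X, Y)

/-- the number of large blocks of `12` with `k` factors three -/
noncomputable def nk {r : ℕ} (n m k : ℕ) (X Y : Fin r → ℕ) : ℕ := by
  classical exact (Finset.univ.filter fun i : Fin r =>
    QQ n (false, X, Y) i = k ∧ 2 ^ (m - 1) ≤ Y i).card

/-- the threshold of the number of blocks -/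
noncomputable def ka (b : ℝ) : ℝ := 1 - H b

/-- the exponent of the moment -/
noncomputable def sx (b : ℝ) : ℝ := Real.logb 3 (b / (1 - b))

end Pool.Agent.H70.PT
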