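import Pool.Agent.H70.PT.Defs

/-!
# De Mol's tag system S₂ on products of random blocks (problem MP_c95a35_lc): targets
-/

set_option autoImplicit false

open List Finset Pool.Agent.H68.TG Pool.Agent.H75.RW

namespace Pool.Agent.H70.PT

/-! ### The words and the process -/

/-- (WRD) the double pass on the symbols. -/
def T_WRD : Prop := ∀ (r : ℕ) (a : Bool) (X Y : Fin r → ℕ),
  pass (pass (a, bw X Y)) = ((nx (a, X, Y)).1, bw (nx (a, X, Y)).2.1 (nx (a, X, Y)).2.2)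

/-- (LEN) the words of the symbols and their lengths. -/
def T_LEN : Prop := ∀ (r : ℕ) (a : Bool) (X Y : Fin r → ℕ),
  wd X Y = tape (false, bw X Y) ∧
  (tape (a, bw X Y)).length = LL (a, X, Y) - cond a 1 0 ∧
  (tape (pass (a, bw X Y))).length =
    (∑ i : Fin r, (2 * hf (pst a X i) (X i) + t3 (pst a X (i + 1)) (Y i))) - cond (pst a X r) 1 0

/-- (SIZ) the sizes of the blocks after `n` double passes. -/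
def T_SIZ : Prop := ∀ (r n : ℕ) (q : Cf r) (i : Fin r),
  ((3 : ℝ) ^ PP n q i * (q.2.1 i - 2 ^ n) ≤ 2 ^ n * (nx^[n] q).2.1 i ∧
    2 ^ n * ((nx^[n] q).2.1 i : ℝ) ≤ 3 ^ PP n q i * (q.2.1 i + 2 ^ n)) ∧
  ((3 : ℝ) ^ QQ n q i * (q.2.2 i - 2 ^ n) ≤ 2 ^ n * (nx^[n] q).2.2 i ∧
    2 ^ n * ((nx^[n] q).2.2 i : ℝ) ≤ 3 ^ QQ n q i * (q.2.2 i + 2 ^ n))

/-- (NST) the computation with a large block. -/
def T_NST : Prop := ∀ (r n : ℕ) (X Y : Fin r → ℕ), (∃ i, 2 ^ (n + 2) ≤ Y i) →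
  (ps^[2 * n] (wd X Y)).length = LL (ru n X Y) - cond (ru n X Y).1 1 0 ∧
  ∀ i < 2 * n, ∀ j ≤ ((ps^[i] (wd X Y)).length + 1) / 2,
    2 ≤ (step^[j] (ps^[i] (wd X Y))).length

/-! ### Counting -/

/-- (CNT) all sequences of coins occur once. -/
def T_CNT : Prop := ∀ (r : ℕ) (f : (Fin r → ℕ) → (Fin r → ℕ) → ℝ) (n : ℕ) (a : Bool)
    (P Q u v p s : Fin r → ℕ), (∀ i, Odd (u i)) → (∀ i, Odd (v i)) →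
  SS r n (fun X Y =>
    f (fun i => P i + PP n (a, fun i => u i * X i + p i, fun i => v i * Y i + s i) i)
      (fun i => Q i + QQ n (a, fun i => u i * X i + p i, fun i => v i * Y i + s i) i)) =
    tot f n a P Q

/-- (HIB) the high bits are independent of the counters. -/
def T_HIB : Prop := ∀ (r n l : ℕ)
    (g : (Fin r → ℕ) → (Fin r → ℕ) → (Fin r → ℕ) → (Fin r → ℕ) → ℝ),
  SS r (n + l) (fun X Y => g (PP n (false, X, Y)) (QQ n (false, X, Y))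
    (fun i => X i / 2 ^ n) (fun i => Y i / 2 ^ n)) =
  SS r l (fun v w => tot (fun P Q => g P Q v w) n false (fun _ => 0) (fun _ => 0))

/-- (TOA) one counter. -/
def T_TOA : Prop := ∀ (r n : ℕ) (a : Bool) (P Q : Fin r → ℕ) (i : Fin r) (w : ℝ),
  tot (fun P _ => w ^ P i) n a P Q = (4 ^ r * ((1 + w) / 2)) ^ n * w ^ P i ∧
  tot (fun _ Q => w ^ Q i) n a P Q = (4 ^ r * ((1 + w) / 2)) ^ n * w ^ Q i

/-- (TOB) all the counters of the blocks of `12`. -/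
def T_TOB : Prop := ∀ (r n : ℕ) (a : Bool) (P Q : Fin r → ℕ) (g : Fin r → ℕ → ℝ),
  tot (fun _ Q => ∏ i, g i (Q i)) n a P Q =
    (2 ^ r) ^ n * ∏ i, ∑ j ∈ Finset.range (n + 1), (n.choose j : ℝ) * g i (Q i + j)

/-- (MOM) the moments of the sizes. -/
def T_MOM : Prop := ∀ (r n m : ℕ) (i : Fin r) (w : ℝ), n ≤ m →
  SS r m (fun X Y => w ^ PP n (false, X, Y) i) = (4 ^ m) ^ r * ((1 + w) / 2) ^ n ∧
  SS r m (fun X Y => w ^ QQ n (false, X, Y) i) = (4 ^ m) ^ r * ((1 + w) / 2) ^ n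

/-- (LOW) the number of large blocks with `k` factors three. -/
def T_LOW : Prop := ∀ (r n m k : ℕ), n + 1 ≤ m → k ≤ n →
  NN r m (fun X Y => (nk n m k X Y : ℝ) ≤ r * ((n.choose k : ℝ) / 2 ^ n) / 8) ≤
    Real.exp (-(r * ((n.choose k : ℝ) / 2 ^ n) / 6)) * (4 ^ m) ^ r

/-- (LBD) the lower bound for the length. -/
def T_LBD : Prop := ∀ (r n m k : ℕ) (X Y : Fin r → ℕ), n + 2 ≤ m →
  (nk n m k X Y : ℝ) * 2 ^ m * 3 ^ k / 2 ^ (n + 1) ≤ LL (ru n X Y) ∧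
  (1 ≤ nk n m k X Y → ∃ i, 2 ^ (m - 1) ≤ Y i)

/-- (UPP) the upper bound for the length. -/
def T_UPP : Prop := ∀ (r n m : ℕ) (b ε : ℝ), n ≤ m → 1 ≤ r → 1 / 2 ≤ b → b ≤ 3 / 4 → 0 ≤ ε →
  (b = 3 / 4 ∨ (r : ℝ) ≤ 2 ^ (ka b * n)) →
  NN r m (fun X Y => (r : ℝ) * 2 ^ m * 2 ^ ((mu b + ε) * n) < LL (ru n X Y)) ≤
    12 * 2 ^ (-(ε * sx b * n)) * (4 ^ m) ^ r

/-- (BIN) the binomial coefficient. -/
def T_BIN : Prop := ∀ (n : ℕ) (b : ℝ), 1 / 2 ≤ b → b ≤ 3 / 4 → ∃ k ≤ n,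
  (2 : ℝ) ^ (-(ka b * n)) / (3 * (n + 1)) ≤ (n.choose k : ℝ) / 2 ^ n ∧
  (3 : ℝ) ^ (b * n) / 3 ≤ 3 ^ k

/-- (MNY) many blocks. -/
def T_MNY : Prop := ∀ ε > (0 : ℝ), ∃ n₀ : ℕ, ∀ n ≥ n₀, ∀ (m r : ℕ) (b : ℝ), n + 2 ≤ m →
  1 / 2 ≤ b → b ≤ 3 / 4 → (2 : ℝ) ^ ((ka b + ε) * n) ≤ r →
  NN r m (fun X Y => ¬ ((r : ℝ) * 2 ^ m * 2 ^ ((mu b - ε) * n) ≤ LL (ru n X Y) ∧
    ∃ i, 2 ^ (m - 1) ≤ Y i)) ≤ 2 ^ (-(n : ℝ)) * (4 ^ m) ^ r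

/-- (ONE) one block. -/
def T_ONE : Prop := ∀ ε > (0 : ℝ), ε ≤ 1 / 2 → ∃ c > (0 : ℝ), ∃ n₀ : ℕ, ∀ n ≥ n₀, ∀ m r : ℕ,
  (n : ℝ) ≤ (1 - ε) * m → 1 ≤ r →
  NN r m (fun X Y => ¬ ((2 : ℝ) ^ m * 2 ^ ((mu (1 / 2) - ε) * n) ≤ LL (ru n X Y) ∧
    ∃ i, 2 ^ (n + 2) ≤ Y i)) ≤ 2 ^ (-(c * n)) * (4 ^ m) ^ r

/-! ### The functions -/

/-- (ENT) the values and monotonicity. -/
def T_ENT : Prop := ka (1 / 2) = 0 ∧ ka (3 / 4) = 3 / 4 * Real.logb 2 3 - 1 ∧ mu (3 / 4) = 0 ∧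
  mu (1 / 2) = Real.logb 2 3 / 2 - 1 ∧ Continuous ka ∧ Continuous mu ∧
  StrictMonoOn ka (Set.Icc (1 / 2) (3 / 4)) ∧ StrictMonoOn mu (Set.Icc (1 / 2) (3 / 4))

/-- (IDN) the exponents of the upper bound. -/
def T_IDN : Prop := ∀ b : ℝ, 1 / 2 ≤ b → b ≤ 3 / 4 →
  (1 - sx b) * ka b - sx b * (1 + mu b) - 1 - Real.logb 2 (1 - b) = 0 ∧
  0 ≤ sx b ∧ sx b ≤ 1 ∧ (3 : ℝ) ^ sx b = b / (1 - b) ∧ sx (3 / 4) = 1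

/-- (CHO) the choice of the constants. -/
def T_CHO : Prop := ∀ ε > (0 : ℝ), ∃ η > (0 : ℝ), ∃ δ > (0 : ℝ), η ≤ 1 / 16 ∧
  (∀ x y : ℝ, 1 / 2 ≤ x → x ≤ 3 / 4 → 1 / 2 ≤ y → y ≤ 3 / 4 → |x - y| ≤ η →
    |mu x - mu y| ≤ ε) ∧
  ka (1 / 2 + 2 * η) ≤ ε ∧
  (∀ b, 1 / 2 + η ≤ b → b ≤ 3 / 4 → ka (b - η) + δ ≤ ka b) ∧
  ∀ b, 1 / 2 + η ≤ b → b ≤ 3 / 4 → δ ≤ sx b

/-- (GRE) the definition of `β`. -/
def T_GRE : Prop := ∀ t : ℝ, 0 ≤ t → ∃ β, IsGreatest {b : ℝ | 1 / 2 ≤ b ∧ b ≤ 3 / 4 ∧ ka b ≤ t} β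

/-! ### The theorem -/

/-- (FIN) the theorem. -/
def T_FIN : Prop := ∀ ε > (0 : ℝ), ∃ c > (0 : ℝ), ∃ n₀ : ℕ, ∀ n ≥ n₀, ∀ m r : ℕ,
  (n : ℝ) ≤ (1 - ε) * m → 1 ≤ r → ∃ β : ℝ,
    IsGreatest {b : ℝ | 1 / 2 ≤ b ∧ b ≤ 3 / 4 ∧ ka b ≤ Real.logb 2 r / n} β ∧
    NN r m (fun X Y => ¬ Good ε β n m r X Y) ≤ 2 ^ (-(c * n)) * (4 ^ m) ^ r

end Pool.Agent.H70.PT
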