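import Pool.Agent.H70.PT.Targets

/-!
# De Mol's tag system S₂ on products of blocks (problem MP_c95a35_lc): targets, all but one entry
fixed
-/

set_option autoImplicit false

open List Finset Pool.Agent.H68.TG Pool.Agent.H75.RW

namespace Pool.Agent.H70.PT

/-- the largest `b` in `[1/2, 3/4]` with `1 - H b ≤ log₂ r / n` -/
noncomputable def be (n r : ℕ) : ℝ :=
  sSup {b : ℝ | 1 / 2 ≤ b ∧ b ≤ 3 / 4 ∧ 1 - H b ≤ Real.logb 2 r / n}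

/-- (MOF) the moments of the sizes over the first number alone. -/
def T_MOF : Prop := ∀ (r n m : ℕ) (X Y : Fin r → ℕ) (z i : Fin r) (w : ℝ), (z : ℕ) = 0 → n ≤ m →
  ∑ x ∈ Finset.range (2 ^ m), w ^ PP n (false, Function.update X z x, Y) i =
    2 ^ m * ((1 + w) / 2) ^ n ∧
  ∑ x ∈ Finset.range (2 ^ m), w ^ QQ n (false, Function.update X z x, Y) i =
    2 ^ m * ((1 + w) / 2) ^ n

/-- (UPF) the upper bound for the length. -/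
def T_UPF : Prop := ∀ (r n m : ℕ) (b ε : ℝ) (X Y : Fin r → ℕ) (z : Fin r), (z : ℕ) = 0 → n ≤ m →
  1 / 2 ≤ b → b ≤ 3 / 4 → 0 ≤ ε → (b = 3 / 4 ∨ (r : ℝ) ≤ 2 ^ (ka b * n)) →
  (∀ i, X i < 2 ^ m ∧ Y i < 2 ^ m) →
  (({x : ℕ | x < 2 ^ m ∧
    (r : ℝ) * 2 ^ m * 2 ^ ((mu b + ε) * n) < LL (ru n (Function.update X z x) Y)}.ncard : ℕ) : ℝ) ≤
    12 * 2 ^ (-(ε * sx b * n)) * 2 ^ m

/-- (NSX) the computation with a large block of `0`. -/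
def T_NSX : Prop := ∀ (r n : ℕ) (X Y : Fin r → ℕ), (∃ i, 2 ^ (n + 3) ≤ X i) →
  (ps^[2 * n] (wd X Y)).length = LL (ru n X Y) - cond (ru n X Y).1 1 0 ∧
  ∀ i < 2 * n, ∀ j ≤ ((ps^[i] (wd X Y)).length + 1) / 2,
    2 ≤ (step^[j] (ps^[i] (wd X Y))).length

/-- (FIB) all but one entry fixed. -/
def T_FIB : Prop := ∀ ε > (0 : ℝ), ∃ c > (0 : ℝ), ∃ n₀ : ℕ, ∀ n ≥ n₀, ∀ m r : ℕ,
  (n : ℝ) ≤ (1 - ε) * m → 1 ≤ r → ∀ (X Y : Fin r → ℕ) (z : Fin r), (z : ℕ) = 0 →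
  (∀ i, X i < 2 ^ m ∧ Y i < 2 ^ m) →
  (({x : ℕ | x < 2 ^ m ∧
    ¬ (((ps^[2 * n] (wd (Function.update X z x) Y)).length : ℝ) ≤
        (r : ℝ) * 2 ^ m * 2 ^ ((mu (be n r) + ε) * n) ∧
      ∀ i < 2 * n, ∀ j ≤ ((ps^[i] (wd (Function.update X z x) Y)).length + 1) / 2,
        2 ≤ (step^[j] (ps^[i] (wd (Function.update X z x) Y))).length)}.ncard : ℕ) : ℝ) ≤
    2 ^ (-(c * n)) * 2 ^ m

end Pool.Agent.H70.PT
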